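import Pool.Agent.W593.ZT.Stm

/-! ZT-K4: no minimal bad subgroup of order at least four. -/

open scoped Classical

namespace Pool.Agent.W162.ZT

open Pool.Agent.W593.ZT

theorem k4 (hKU : S_KU) : S_K4 := by
  intro V G _ _ _ c hc M B hB hM hk hnu hmin hFF hsz
  have hG : Fintype.card G = M.index * Nat.card M := by
    rw [← Nat.card_eq_fintype_card, AddSubgroup.index_mul_card]
  set q := M.index with hq
  set k := Nat.card M with hkk
  set n := (Finset.univ \ B).card with hn
  set nu := (nc c M Finset.univ B).card with hnuu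
  have hq2 : 2 ≤ q := by omega
  refine hKU V G c hc M B hB hM (by omega) hnu hmin ?_ ?_ ?_
  · intro K hK
    have h1 : FF c B ≤ ∑ z ∈ ((Finset.univ \ B) \ nc c M Finset.univ B) \ K,
        ((Cs c B z).card - 1) + 2 * nu + 2 * K.card := by
      unfold FF
      have hsub : Finset.univ \ B ⊆ ((((Finset.univ \ B) \ nc c M Finset.univ B) \ K) ∪
          nc c M Finset.univ B) ∪ K := by
        intro z hz
        by_cases h1 : z ∈ K
        · simp [h1]
        · by_cases h2 : z ∈ nc c M Finset.univ B
          · simp [h2]
          · simp only [Finset.mem_union, Finset.mem_sdiff] at hz ⊢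
            exact Or.inl (Or.inl ⟨⟨hz, h2⟩, h1⟩)
      calc ∑ z ∈ Finset.univ \ B, (min (Cs c B z).card 3 - 1)
          ≤ ∑ z ∈ ((((Finset.univ \ B) \ nc c M Finset.univ B) \ K) ∪
              nc c M Finset.univ B) ∪ K, (min (Cs c B z).card 3 - 1) :=
            Finset.sum_le_sum_of_subset hsub
        _ ≤ ∑ z ∈ (((Finset.univ \ B) \ nc c M Finset.univ B) \ K) ∪
              nc c M Finset.univ B, (min (Cs c B z).card 3 - 1)
              + ∑ z ∈ K, (min (Cs c B z).card 3 - 1) := by
            rw [← Finset.sum_union_inter]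
            exact Nat.le_add_right _ _
        _ ≤ (∑ z ∈ ((Finset.univ \ B) \ nc c M Finset.univ B) \ K, (min (Cs c B z).card 3 - 1)
              + ∑ z ∈ nc c M Finset.univ B, (min (Cs c B z).card 3 - 1))
              + ∑ z ∈ K, (min (Cs c B z).card 3 - 1) := by
            apply Nat.add_le_add_right
            rw [← Finset.sum_union_inter]
            exact Nat.le_add_right _ _
        _ ≤ (∑ z ∈ ((Finset.univ \ B) \ nc c M Finset.univ B) \ K, ((Cs c B z).card - 1)
              + 2 * nu) + 2 * K.card := by
            apply Nat.add_le_add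
            · apply Nat.add_le_add
              · apply Finset.sum_le_sum
                intro z _
                omega
              · have := Finset.sum_le_card_nsmul (nc c M Finset.univ B)
                  (fun z => min (Cs c B z).card 3 - 1) 2 (by intro z _; omega)
                simpa [mul_comm] using this
            · have := Finset.sum_le_card_nsmul K
                (fun z => min (Cs c B z).card 3 - 1) 2 (by intro z _; omega)
              simpa [mul_comm] using this
    have h2 : q * k ≤ ∑ z ∈ ((Finset.univ \ B) \ nc c M Finset.univ B) \ K,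
        ((Cs c B z).card - 1) + 2 * nu + 2 * K.card + 1 := by
      rw [← hG]; omega
    have h3 : k + 4 * q ≤ q * k + 4 := by
      obtain ⟨x, hx⟩ := Nat.exists_eq_add_of_le hk
      obtain ⟨y, hy⟩ := Nat.exists_eq_add_of_le hq2
      rw [hx, hy]; nlinarith
    omega
  · have h3 : 4 * q + 2 * k ≤ q * k + 8 := by
      obtain ⟨x, hx⟩ := Nat.exists_eq_add_of_le hk
      obtain ⟨y, hy⟩ := Nat.exists_eq_add_of_le hq2
      rw [hx, hy]; nlinarith
    rw [hG] at hsz
    omega
  · intro v s hv hv2 hsv
    have h3 : 2 * (2 * v + 2 * s + k) ≤ q * k + 6 := by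
      obtain ⟨x, hx⟩ := Nat.exists_eq_add_of_le hk
      obtain ⟨y, hy⟩ := Nat.exists_eq_add_of_le hv
      rcases Nat.eq_zero_or_pos s with hs | hs
      · have h4 : 2 * v * k ≤ q * k := Nat.mul_le_mul_right _ hv2
        subst hs
        rw [hx, hy] at h4 ⊢
        nlinarith
      · obtain ⟨w, hw⟩ := Nat.exists_eq_add_of_le hs
        have h4 : (s + 1) * v * k ≤ q * k := Nat.mul_le_mul_right _ hsv
        rw [hx, hy, hw] at h4 ⊢
        nlinarith [Nat.zero_le (w * y), Nat.zero_le (w * x), Nat.zero_le (x * y),
          Nat.zero_le (w * y * x), Nat.zero_le w, Nat.zero_le y, Nat.zero_le x]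
    rw [hG] at hsz
    omega

end Pool.Agent.W162.ZT
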